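import Mathlib
import Pool.Agent.N876.UV.Ord

/-!
# Euler products of polynomials: convergence and values
-/

set_option autoImplicit false

namespace Pool.Agent.U926.FE

open Finset Polynomial Filter Topology Pool.Agent.N876.UV

/-- the sum of the norms of the terms at `y` is at most `C` -/
def Bs (y C : ℝ) (L : PowerSeries ℂ) : Prop :=
  Summable (fun n => ‖PowerSeries.coeff n L‖ * y ^ n) ∧
    ∑' n, ‖PowerSeries.coeff n L‖ * y ^ n ≤ C

theorem Bs.mono {y C C' : ℝ} {L : PowerSeries ℂ} (h : Bs y C L) (hC : C ≤ C') : Bs y C' L :=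
  ⟨h.1, h.2.trans hC⟩

theorem Bs.nonneg {y C : ℝ} (hy : 0 ≤ y) {L : PowerSeries ℂ} (h : Bs y C L) : 0 ≤ C :=
  le_trans (tsum_nonneg fun n => mul_nonneg (norm_nonneg _) (pow_nonneg hy n)) h.2

theorem Bs.one (y : ℝ) : Bs y 1 1 := by
  have h1 : (fun n => ‖PowerSeries.coeff n (1 : PowerSeries ℂ)‖ * y ^ n) =
      fun n => if n = 0 then (1 : ℝ) else 0 := by
    funext n
    rw [PowerSeries.coeff_one]
    split_ifs with h
    · rw [h, norm_one, pow_zero, mul_one]
    · rw [norm_zero, zero_mul]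
  have h2 : HasSum (fun n : ℕ => if n = 0 then (1 : ℝ) else 0) 1 := hasSum_ite_eq 0 1
  unfold Bs
  rw [h1]
  exact ⟨h2.summable, h2.tsum_eq.le⟩

theorem Bs.mul {y C C' : ℝ} (hy : 0 ≤ y) {L L' : PowerSeries ℂ} (h : Bs y C L) (h' : Bs y C' L') :
    Bs y (C * C') (L * L') := by
  have h1 : Summable fun n => ‖PowerSeries.coeff n L * (y : ℂ) ^ n‖ := by
    refine h.1.congr fun n => ?_
    rw [norm_mul, norm_pow, Complex.norm_real, Real.norm_of_nonneg hy]
  have h2 : Summable fun n => ‖PowerSeries.coeff n L' * (y : ℂ) ^ n‖ := by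
    refine h'.1.congr fun n => ?_
    rw [norm_mul, norm_pow, Complex.norm_real, Real.norm_of_nonneg hy]
  have key : ∀ n, ‖PowerSeries.coeff n (L * L')‖ * y ^ n ≤
      ∑ kl ∈ antidiagonal n, (‖PowerSeries.coeff kl.1 L‖ * y ^ kl.1) *
        (‖PowerSeries.coeff kl.2 L'‖ * y ^ kl.2) := by
    intro n
    rw [PowerSeries.coeff_mul]
    calc ‖∑ p ∈ antidiagonal n, PowerSeries.coeff p.1 L * PowerSeries.coeff p.2 L'‖ * y ^ n
        ≤ (∑ p ∈ antidiagonal n, ‖PowerSeries.coeff p.1 L * PowerSeries.coeff p.2 L'‖) * y ^ n :=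
          mul_le_mul_of_nonneg_right (norm_sum_le _ _) (pow_nonneg hy _)
      _ = _ := by
          rw [sum_mul]
          refine sum_congr rfl fun p hp => ?_
          rw [norm_mul, ← mem_antidiagonal.1 hp, pow_add]
          ring
  have hs := summable_norm_sum_mul_antidiagonal_of_summable_norm
    (f := fun n => ‖PowerSeries.coeff n L‖ * y ^ n) (g := fun n => ‖PowerSeries.coeff n L'‖ * y ^ n)
    (by simpa [abs_of_nonneg hy] using h.1) (by simpa [abs_of_nonneg hy] using h'.1)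
  have hs' : Summable (fun n => ∑ kl ∈ antidiagonal n, (‖PowerSeries.coeff kl.1 L‖ * y ^ kl.1) *
        (‖PowerSeries.coeff kl.2 L'‖ * y ^ kl.2)) := hs.of_norm
  have ht := tsum_mul_tsum_eq_tsum_sum_antidiagonal_of_summable_norm
    (f := fun n => ‖PowerSeries.coeff n L‖ * y ^ n) (g := fun n => ‖PowerSeries.coeff n L'‖ * y ^ n)
    (by simpa [abs_of_nonneg hy] using h.1) (by simpa [abs_of_nonneg hy] using h'.1)
  have hsum : Summable (fun n => ‖PowerSeries.coeff n (L * L')‖ * y ^ n) :=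
    Summable.of_nonneg_of_le (fun n => mul_nonneg (norm_nonneg _) (pow_nonneg hy n)) key hs'
  refine ⟨hsum, ?_⟩
  refine (Summable.tsum_le_tsum key hsum hs').trans ?_
  rw [← ht]
  exact mul_le_mul h.2 h'.2 (tsum_nonneg fun n => mul_nonneg (norm_nonneg _) (pow_nonneg hy n))
    (h.nonneg hy)

theorem Bs.prod {J : Type*} (s : Finset J) {y : ℝ} (hy : 0 ≤ y) {C : J → ℝ}
    {F : J → PowerSeries ℂ} (hF : ∀ j ∈ s, Bs y (C j) (F j)) : Bs y (∏ j ∈ s, C j) (∏ j ∈ s, F j) := by
  classical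
  induction s using Finset.induction_on with
  | empty => rw [prod_empty, prod_empty]; exact Bs.one y
  | insert a s ha ih =>
    rw [prod_insert ha, prod_insert ha]
    exact (hF a (mem_insert_self _ _)).mul hy (ih fun j hj => hF j (mem_insert_of_mem hj))

/-- the geometric series -/
noncomputable def geo (b : ℂ) (d : ℕ) : PowerSeries ℂ :=
  PowerSeries.mk fun n => if d ∣ n then b ^ (n / d) else 0

theorem geo_mul (b : ℂ) {d : ℕ} (hd : 0 < d) :
    geo b d * ((1 - C b * X ^ d : ℂ[X]) : PowerSeries ℂ) = 1 := by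
  ext n
  rw [Polynomial.coe_sub, Polynomial.coe_one, Polynomial.coe_mul, Polynomial.coe_C,
    Polynomial.coe_pow, Polynomial.coe_X, mul_sub, mul_one, map_sub]
  have h1 : PowerSeries.coeff n (geo b d * (PowerSeries.C b * PowerSeries.X ^ d)) =
      if d ≤ n then b * PowerSeries.coeff (n - d) (geo b d) else 0 := by
    have h2 : geo b d * (PowerSeries.C b * PowerSeries.X ^ d) =
        PowerSeries.C b * (geo b d * PowerSeries.X ^ d) := by ring
    rw [h2, PowerSeries.coeff_C_mul, PowerSeries.coeff_mul_X_pow']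
    split_ifs
    · rfl
    · rw [mul_zero]
  rw [h1, PowerSeries.coeff_one]
  unfold geo
  rw [PowerSeries.coeff_mk, PowerSeries.coeff_mk]
  rcases Nat.eq_zero_or_pos n with h0 | h0
  · subst h0
    rw [if_pos (dvd_zero d), if_neg (by omega), Nat.zero_div, pow_zero, sub_zero, if_pos rfl]
  · rw [if_neg h0.ne']
    by_cases hdn : d ∣ n
    · obtain ⟨k, rfl⟩ := hdn
      have hk : 0 < k := Nat.pos_of_mul_pos_left h0 |> fun h => by
        rcases Nat.eq_zero_or_pos k with h' | h'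
        · rw [h', mul_zero] at h0; omega
        · exact h'
      rw [if_pos (dvd_mul_right d k), if_pos (Nat.le_mul_of_pos_right d hk)]
      have h3 : d * k - d = d * (k - 1) := by
        rw [Nat.mul_sub, mul_one]
      rw [h3, if_pos (dvd_mul_right d _), Nat.mul_div_cancel_left _ hd,
        Nat.mul_div_cancel_left _ hd]
      obtain ⟨m, rfl⟩ : ∃ m, k = m + 1 := ⟨k - 1, by omega⟩
      rw [Nat.add_sub_cancel, pow_succ]
      ring
    · rw [if_neg hdn]
      split_ifs with h4 h5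
      · exact absurd ((Nat.dvd_sub_iff_left h4 (dvd_refl d)).1 h5) hdn
      · ring
      · ring

theorem geo_Bs {b : ℂ} {d : ℕ} (hd : 0 < d) {y : ℝ} (hy : 0 ≤ y) (hb : ‖b‖ * y ^ d < 1) :
    Bs y (1 - ‖b‖ * y ^ d)⁻¹ (geo b d) := by
  have h0 : 0 ≤ ‖b‖ * y ^ d := mul_nonneg (norm_nonneg _) (pow_nonneg hy _)
  have h1 : HasSum (fun m : ℕ => (‖b‖ * y ^ d) ^ m) (1 - ‖b‖ * y ^ d)⁻¹ :=
    hasSum_geometric_of_lt_one h0 hb
  have hinj : Function.Injective (fun m : ℕ => d * m) := fun m m' h =>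
    Nat.eq_of_mul_eq_mul_left hd h
  have h2 : HasSum (fun n => ‖PowerSeries.coeff n (geo b d)‖ * y ^ n) (1 - ‖b‖ * y ^ d)⁻¹ := by
    refine (hinj.hasSum_iff ?_).1 ?_
    · intro n hn
      have h3 : ¬ d ∣ n := by
        rintro ⟨k, rfl⟩
        exact hn ⟨k, rfl⟩
      unfold geo
      rw [PowerSeries.coeff_mk, if_neg h3, norm_zero, zero_mul]
    · refine h1.congr_fun ?_ |> fun h => h
      intro m
      unfold geo
      simp only [Function.comp]
      rw [PowerSeries.coeff_mk, if_pos (dvd_mul_right d m), Nat.mul_div_cancel_left _ hd, norm_pow,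
        mul_pow, pow_mul]
  exact ⟨h2.summable, h2.tsum_eq.le⟩

end Pool.Agent.U926.FE
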