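import Pool.Agent.U926.FE.Val
import Pool.Agent.TH117.BL.LW

/-!
# Euler products over the closed points of a variety
-/

set_option autoImplicit false

namespace Pool.Agent.U926.FE

open Finset Polynomial Filter Topology Pool.Agent.N876.UV

/-- The closed points of a geometrically irreducible variety of dimension `D` over the field with `q`
elements, with their degrees: there are finitely many points of each degree, and the number of
points over the extension of degree `m`, the sum of the degrees of the closed points of degree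
dividing `m`, satisfies the estimate of Lang and Weil. -/
structure IsBase (q D : ℕ) {P : Type} (deg : P → ℕ) : Prop where
  pos : ∀ v, 0 < deg v
  finite : ∀ m, 0 < m → {v | deg v ∣ m}.Finite
  count : ∃ C : ℝ, ∀ m (hm : 0 < m), |(∑ v ∈ (finite m hm).toFinset, (deg v : ℝ)) -
    ((q : ℝ) ^ D) ^ m| ≤ C * ((q : ℝ) ^ D / Real.sqrt q) ^ m

variable {P : Type} {q D : ℕ} {dg : P → ℕ}

theorem IsBase.bound (hq : 1 < q) (h : IsBase q D dg) : ∃ B : ℝ, 0 ≤ B ∧ ∀ m (hm : 0 < m),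
    (∑ v ∈ (h.finite m hm).toFinset, (dg v : ℝ)) ≤ B * ((q : ℝ) ^ D) ^ m := by
  obtain ⟨C, hC⟩ := h.count
  have hq1 : (1 : ℝ) < q := by exact_mod_cast hq
  have hs : 1 ≤ Real.sqrt q := by
    rw [Real.one_le_sqrt]
    exact hq1.le
  have hqD : (0 : ℝ) < (q : ℝ) ^ D := by positivity
  refine ⟨1 + |C|, by positivity, fun m hm => ?_⟩
  have h1 := (abs_le.1 (hC m hm)).2
  have h2 : C * ((q : ℝ) ^ D / Real.sqrt q) ^ m ≤ |C| * ((q : ℝ) ^ D) ^ m := by
    refine mul_le_mul (le_abs_self C) ?_ (by positivity) (abs_nonneg C)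
    exact pow_le_pow_left₀ (by positivity) (div_le_self hqD.le hs) m
  linarith

theorem base_summable (hq : 1 < q) (h : IsBase q D dg) {z : ℝ} (hz : 0 ≤ z)
    (hz1 : z * (q : ℝ) ^ D < 1) : Summable fun v => z ^ dg v := by
  classical
  obtain ⟨B, hB0, hB⟩ := h.bound hq
  set R : ℝ := (q : ℝ) ^ D with hR
  have hR0 : 0 ≤ z * R := by positivity
  refine summable_of_sum_le (c := B * (1 - z * R)⁻¹) (fun v => pow_nonneg hz _) fun u => ?_
  rw [← sum_fiberwise_of_maps_to (t := u.image dg) (g := dg) (fun v hv => mem_image_of_mem dg hv)]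
  have h1 : ∀ m ∈ u.image dg, ∑ v ∈ u with dg v = m, z ^ dg v ≤ B * (z * R) ^ m := by
    intro m hm
    obtain ⟨v0, -, hv0⟩ := mem_image.1 hm
    have hm0 : 0 < m := hv0 ▸ h.pos v0
    have h2 : ∑ v ∈ u with dg v = m, z ^ dg v ≤ ∑ v ∈ u with dg v = m, (dg v : ℝ) * z ^ m := by
      refine sum_le_sum fun v hv => ?_
      have h3 := (mem_filter.1 hv).2
      rw [h3]
      have h4 : (1 : ℝ) ≤ m := by exact_mod_cast hm0
      nlinarith [pow_nonneg hz m]
    refine h2.trans ?_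
    rw [← sum_mul]
    have h3 : ∑ v ∈ u with dg v = m, (dg v : ℝ) ≤
        ∑ v ∈ (h.finite m hm0).toFinset, (dg v : ℝ) := by
      refine sum_le_sum_of_subset_of_nonneg ?_ fun v _ _ => Nat.cast_nonneg _
      intro v hv
      rw [Set.Finite.mem_toFinset]
      show dg v ∣ m
      rw [(mem_filter.1 hv).2]
    calc (∑ v ∈ u with dg v = m, (dg v : ℝ)) * z ^ m ≤ (B * R ^ m) * z ^ m :=
          mul_le_mul_of_nonneg_right (h3.trans (hB m hm0)) (pow_nonneg hz m)
      _ = B * (z * R) ^ m := by rw [mul_pow]; ring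
  refine (sum_le_sum h1).trans ?_
  rw [← mul_sum]
  refine mul_le_mul_of_nonneg_left ?_ hB0
  rw [← tsum_geometric_of_lt_one hR0 hz1]
  exact (summable_geometric_of_lt_one hR0 hz1).sum_le_tsum _ fun m _ => pow_nonneg hR0 m

section fac

variable {J : P → Type} [∀ v, Fintype (J v)] {pr : ∀ v, J v → Prop} {β : ∀ v, J v → ℂ}
  {R0 : ℝ} {b : ℕ}

/-- the inverse of the Euler factor -/
noncomputable def Gv (dg : P → ℕ) (pr : ∀ v, J v → Prop) (β : ∀ v, J v → ℂ) (v : P) :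
    PowerSeries ℂ := ∏ e ∈ fs (pr v), geo (β v e) (dg v)

theorem Gv_mul (hdg : ∀ v, 0 < dg v) (v : P) :
    Gv dg pr β v * (fac (pr v) (β v) (dg v) : PowerSeries ℂ) = 1 := by
  unfold Gv
  rw [fac_coe, ← prod_mul_distrib]
  exact prod_eq_one fun e _ => geo_mul _ (hdg v)

theorem card_fs_le (hb : ∀ v, Fintype.card (J v) ≤ b) (v : P) : (fs (pr v)).card ≤ b :=
  (Finset.card_le_univ _).trans (hb v)

theorem pow_lt_one' {z : ℝ} (hz : 0 ≤ z) (hz1 : z < 1) {d : ℕ} (hd : 0 < d) : z ^ d ≤ z := by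
  calc z ^ d ≤ z ^ 1 := pow_le_pow_of_le_one hz hz1.le hd
    _ = z := pow_one z

theorem inv_le_exp {u z : ℝ} (hu : 0 ≤ u) (huz : u ≤ z) (hz1 : z < 1) :
    (1 - u)⁻¹ ≤ Real.exp (u / (1 - z)) := by
  have h0 : 0 < 1 - u := by linarith
  have h1 : (1 - u)⁻¹ = u / (1 - u) + 1 := by field_simp; ring
  have h2 : u / (1 - u) ≤ u / (1 - z) :=
    div_le_div_of_nonneg_left hu (by linarith) (by linarith)
  rw [h1]
  exact (Real.add_one_le_exp _).trans (Real.exp_le_exp.2 h2)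

theorem Gv_Bs (hdg : ∀ v, 0 < dg v) (hb : ∀ v, Fintype.card (J v) ≤ b) (hR : 0 ≤ R0)
    (hβ : ∀ v e, pr v e → ‖β v e‖ ≤ R0 ^ dg v) {y : ℝ} (hy : 0 ≤ y) (hz : R0 * y < 1) (v : P) :
    Bs y (Real.exp (b * ((R0 * y) ^ dg v / (1 - R0 * y)))) (Gv dg pr β v) := by
  set z := R0 * y with hz'
  have hz0 : 0 ≤ z := mul_nonneg hR hy
  have hzd : z ^ dg v ≤ z := pow_lt_one' hz0 hz (hdg v)
  have h1 : ∀ e ∈ fs (pr v), Bs y (Real.exp (z ^ dg v / (1 - z))) (geo (β v e) (dg v)) := by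
    intro e he
    have h2 : ‖β v e‖ * y ^ dg v ≤ z ^ dg v := by
      rw [hz', mul_pow]
      exact mul_le_mul_of_nonneg_right (hβ v e (mem_fs.1 he)) (pow_nonneg hy _)
    refine (geo_Bs (hdg v) hy (by linarith)).mono ?_
    have h3 : 0 ≤ ‖β v e‖ * y ^ dg v := by positivity
    refine (inv_le_exp h3 (h2.trans hzd) hz).trans (Real.exp_le_exp.2 ?_)
    exact div_le_div_of_nonneg_right h2 (by linarith)
  refine (Bs.prod _ hy h1).mono ?_
  rw [prod_const, ← Real.exp_nat_mul]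
  refine Real.exp_le_exp.2 (mul_le_mul_of_nonneg_right ?_ ?_)
  · exact_mod_cast card_fs_le hb v
  · exact div_nonneg (pow_nonneg hz0 _) (by linarith)

theorem Gv_bound (hq : 1 < q) (hP : IsBase q D dg) (hb : ∀ v, Fintype.card (J v) ≤ b)
    (hR : 0 ≤ R0) (hβ : ∀ v e, pr v e → ‖β v e‖ ≤ R0 ^ dg v) {y : ℝ} (hy : 0 ≤ y)
    (hz : R0 * y * (q : ℝ) ^ D < 1) : ∃ C : ℝ, ∀ s : Finset P, Bs y C (∏ v ∈ s, Gv dg pr β v) := by
  have hq1 : (1 : ℝ) ≤ (q : ℝ) ^ D := one_le_pow₀ (by exact_mod_cast hq.le)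
  have hz0 : 0 ≤ R0 * y := mul_nonneg hR hy
  have hz1 : R0 * y < 1 := by nlinarith
  have hs := base_summable hq hP hz0 hz
  refine ⟨Real.exp (b * ((∑' v, (R0 * y) ^ dg v) / (1 - R0 * y))), fun s => ?_⟩
  refine (Bs.prod s hy fun v _ => Gv_Bs hP.pos hb hR hβ hy hz1 v).mono ?_
  rw [← Real.exp_sum]
  refine Real.exp_le_exp.2 ?_
  rw [← mul_sum, ← sum_div]
  refine mul_le_mul_of_nonneg_left ?_ (Nat.cast_nonneg b)
  exact div_le_div_of_nonneg_right (hs.sum_le_tsum _ fun v _ => pow_nonneg hz0 _) (by linarith)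

theorem fac_eval (x : ℂ) (v : P) : ((fac (pr v) (β v) (dg v)).eval x)⁻¹ =
    ∏ e ∈ fs (pr v), (1 - β v e * x ^ dg v)⁻¹ := by
  unfold fac
  rw [eval_prod, ← Finset.prod_inv_distrib]
  refine prod_congr rfl fun e _ => ?_
  rw [eval_sub, eval_one, eval_mul, eval_C, eval_pow, eval_X]

theorem multipliable_fac (hq : 1 < q) (hP : IsBase q D dg) (hb : ∀ v, Fintype.card (J v) ≤ b)
    (hR : 0 ≤ R0) (hβ : ∀ v e, pr v e → ‖β v e‖ ≤ R0 ^ dg v) {x : ℂ}
    (hz : R0 * ‖x‖ * (q : ℝ) ^ D < 1) :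
    Multipliable fun v => ((fac (pr v) (β v) (dg v)).eval x)⁻¹ := by
  have hq1 : (1 : ℝ) ≤ (q : ℝ) ^ D := one_le_pow₀ (by exact_mod_cast hq.le)
  set z := R0 * ‖x‖ with hz'
  have hz0 : 0 ≤ z := mul_nonneg hR (norm_nonneg x)
  have hz1 : z < 1 := by nlinarith
  have hs := base_summable hq hP hz0 hz
  have h1 : (fun v => ((fac (pr v) (β v) (dg v)).eval x)⁻¹) =
      fun v => 1 + (((fac (pr v) (β v) (dg v)).eval x)⁻¹ - 1) := by
    funext v
    ring
  rw [h1]
  refine multipliable_one_add_of_summable ?_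
  set M := Real.exp (b * (1 / (1 - z))) with hM
  refine Summable.of_nonneg_of_le (fun v => norm_nonneg _) (fun v => ?_)
    ((hs.mul_left (b * (1 / (1 - z)))).mul_right M)
  rw [fac_eval]
  have h2 : ∀ e ∈ fs (pr v), ‖β v e * x ^ dg v‖ ≤ z ^ dg v := by
    intro e he
    rw [norm_mul, norm_pow, hz', mul_pow]
    exact mul_le_mul_of_nonneg_right (hβ v e (mem_fs.1 he)) (pow_nonneg (norm_nonneg x) _)
  have hzd : z ^ dg v ≤ z := pow_lt_one' hz0 hz1 (hP.pos v)
  have h3 : ∏ e ∈ fs (pr v), (1 - β v e * x ^ dg v)⁻¹ =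
      ∏ e ∈ fs (pr v), (1 + β v e * x ^ dg v / (1 - β v e * x ^ dg v)) := by
    refine prod_congr rfl fun e he => ?_
    have h4 : 1 - β v e * x ^ dg v ≠ 0 := by
      intro h5
      have h6 : β v e * x ^ dg v = 1 := (sub_eq_zero.1 h5).symm
      have h7 := h2 e he
      rw [h6, norm_one] at h7
      linarith
    field_simp
    ring
  rw [h3]
  refine (Finset.norm_prod_one_add_sub_one_le _ _).trans ?_
  have h4 : ∑ e ∈ fs (pr v), ‖β v e * x ^ dg v / (1 - β v e * x ^ dg v)‖ ≤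
      b * (z ^ dg v / (1 - z)) := by
    have h5 : ∀ e ∈ fs (pr v), ‖β v e * x ^ dg v / (1 - β v e * x ^ dg v)‖ ≤
        z ^ dg v / (1 - z) := by
      intro e he
      rw [norm_div]
      have h6 := h2 e he
      have h7 : 1 - z ≤ ‖1 - β v e * x ^ dg v‖ := by
        have h8 := norm_sub_norm_le (1 : ℂ) (β v e * x ^ dg v)
        rw [norm_one] at h8
        linarith
      exact div_le_div₀ (pow_nonneg hz0 _) h6 (by linarith) h7
    refine (sum_le_sum h5).trans ?_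
    rw [sum_const, nsmul_eq_mul]
    refine mul_le_mul_of_nonneg_right ?_ (div_nonneg (pow_nonneg hz0 _) (by linarith))
    exact_mod_cast card_fs_le hb v
  set T := b * (z ^ dg v / (1 - z)) with hT
  have hT0 : 0 ≤ T := mul_nonneg (Nat.cast_nonneg b) (div_nonneg (pow_nonneg hz0 _) (by linarith))
  have h5 : Real.exp (∑ e ∈ fs (pr v), ‖β v e * x ^ dg v / (1 - β v e * x ^ dg v)‖) - 1 ≤
      T * Real.exp T := by
    have h6 : Real.exp T - 1 ≤ T * Real.exp T := by
      have h7 := Real.add_one_le_exp (-T)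
      have h8 : Real.exp T * Real.exp (-T) = 1 := by rw [← Real.exp_add, add_neg_cancel, Real.exp_zero]
      nlinarith [Real.exp_pos T]
    have h7 := Real.exp_le_exp.2 h4
    linarith
  refine h5.trans ?_
  have h6 : T ≤ b * (1 / (1 - z)) := by
    refine mul_le_mul_of_nonneg_left ?_ (Nat.cast_nonneg b)
    exact div_le_div_of_nonneg_right (hzd.trans hz1.le) (by linarith)
  calc T * Real.exp T ≤ T * M := mul_le_mul_of_nonneg_left (Real.exp_le_exp.2 h6) hT0
    _ = b * (1 / (1 - z)) * z ^ dg v * M := by rw [hT]; ring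

end fac

end Pool.Agent.U926.FE
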