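import Pool.Agent.U926.FE.Main

/-!
# L-functions of families of products: constant factors and the hypotheses in terms of coverings
-/

set_option autoImplicit false

namespace Pool.Agent.U926.FE

open Finset Polynomial Filter Topology Pool.Agent.N876.UV

theorem fac_eval' {J : Type} [Fintype J] (p : J → Prop) (b : J → ℂ) (d : ℕ) (x : ℂ) :
    ((fac p b d).eval x)⁻¹ = ∏ e ∈ fs p, (1 - b e * x ^ d)⁻¹ := by
  unfold fac
  rw [eval_prod, ← Finset.prod_inv_distrib]
  refine prod_congr rfl fun e _ => ?_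
  rw [eval_sub, eval_one, eval_mul, eval_C, eval_pow, eval_X]

/-- The order of the pole for a constant family. -/
theorem const_order {P : Type} {q D : ℕ} {dg : P → ℕ} (hq : 1 < q) (hP : IsBase q D dg)
    {J : Type} [Fintype J] {deg : J → ℕ} {γ : J → ℂ} (hγ : ∀ e, ‖γ e‖ ^ 2 = (q : ℝ) ^ deg e) (w : ℕ) :
    HasPole (Lf q (yp (JY := fun _ : P => J) dg (fun _ => deg) (fun v e => γ e ^ dg v) (2 * w)))
      ((w + D : ℕ) : ℝ)
      ((fs (fun e => deg e = 2 * w ∧ γ e = (q : ℂ) ^ w)).card : ℤ) := by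
  classical
  have hnorm : ∀ e, deg e = 2 * w → ‖γ e‖ = (q : ℝ) ^ w := by
    intro e he
    have h1 : ‖γ e‖ ^ 2 = ((q : ℝ) ^ w) ^ 2 := by
      rw [hγ, he, ← pow_mul, mul_comm]
    exact (pow_left_inj₀ (norm_nonneg _) (by positivity) two_ne_zero).1 h1
  have h1 := HasPole.prod (fs (fun e => deg e = 2 * w))
    (Φ := fun e s => ∏' v : P, (1 - (γ e * (q : ℂ) ^ (-s)) ^ dg v)⁻¹) (a := ((w + D : ℕ) : ℝ))
    (r := fun e => if γ e = (q : ℂ) ^ w then 1 else 0)
    (fun e he => by
      have he' := mem_fs.1 he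
      exact const_pole hq hP (hnorm e he'))
  have h2 : (∑ e ∈ fs (fun e => deg e = 2 * w), if γ e = (q : ℂ) ^ w then (1 : ℤ) else 0) =
      ((fs (fun e => deg e = 2 * w ∧ γ e = (q : ℂ) ^ w)).card : ℤ) := by
    rw [sum_ite, sum_const_zero, add_zero, sum_const, nsmul_eq_mul, mul_one]
    congr 2
    ext e
    rw [mem_filter, mem_fs, mem_fs]
  rw [h2] at h1
  refine h1.congr fun s hs => ?_
  have hlt := qpow_lt hq hs
  have hmul : ∀ e ∈ fs (fun e => deg e = 2 * w), Multipliable fun v : P =>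
      (1 - (γ e * (q : ℂ) ^ (-(s : ℂ))) ^ dg v)⁻¹ := by
    intro e he
    have h3 := multipliable_fac (J := fun _ : P => Unit) (pr := fun _ _ => True)
      (β := fun v _ => γ e ^ dg v) (b := 1) (R0 := (q : ℝ) ^ w) (x := (q : ℂ) ^ (-(s : ℂ))) hq hP
      (fun v => by simp) (by positivity)
      (fun v u _ => by
        have he' := mem_fs.1 he
        rw [norm_pow, hnorm e he']) hlt
    refine h3.congr fun v => ?_
    rw [fac_eval']
    have h4 : fs (fun _ : Unit => True) = {()} := by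
      ext u
      rw [mem_fs]
      simp
    rw [h4, prod_singleton, mul_pow]
  unfold Lf
  rw [← Multipliable.tprod_finsetProd hmul]
  refine tprod_congr fun v => ?_
  unfold yp
  rw [fac_eval']
  refine prod_congr rfl fun e _ => ?_
  rw [mul_pow]

end Pool.Agent.U926.FE
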