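import Pool.Agent.U926.FE.Pol
import Pool.Agent.N876.UV.Dec

/-!
# L-functions of families of products: orders of poles
-/

set_option autoImplicit false

namespace Pool.Agent.U926.FE

open Finset Polynomial Filter Topology Pool.Agent.N876.UV

variable {ι : Type} [Fintype ι] [DecidableEq ι] {P : Type} {dg : P → ℕ} {Q : P → ℕ} {n d : ι → ℕ}
  {K : ι → Type} [∀ i, Fintype (K i)] {codim : ∀ i, K i → ℕ}
  {J : ι → P → Type} [∀ i v, Fintype (J i v)] {α : ∀ i v, J i v → ℂ} {ε : ∀ i v, J i v → ℕ}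
  {JY : P → Type} [∀ v, Fintype (JY v)] {dY : ∀ v, JY v → ℕ} {β : ∀ v, JY v → ℂ}
  {q D b : ℕ}

theorem eg_norm {K J : Type} {codim : K → ℕ} {n Q : ℕ} {α : J → ℂ}
    (hα : ∀ e, ‖α e‖ ^ 2 = (Q : ℝ) ^ n) (e : K ⊕ J) :
    ‖eg Q codim α e‖ ^ 2 = (Q : ℝ) ^ dgr codim n e := by
  rcases e with k | e
  · show ‖((Q : ℂ) ^ codim k)‖ ^ 2 = (Q : ℝ) ^ (2 * codim k)
    rw [norm_pow, Complex.norm_natCast, ← pow_mul, mul_comm]
  · exact hα e

omit [DecidableEq ι] [∀ i, Fintype (K i)] [∀ i v, Fintype (J i v)] [∀ v, Fintype (JY v)] in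
theorem ee_norm (hα : ∀ i v e, ‖α i v e‖ ^ 2 = (Q v : ℝ) ^ n i)
    (hβ : ∀ v e, ‖β v e‖ ^ 2 = (Q v : ℝ) ^ dY v e) {v : P} (E : (∀ i, K i ⊕ J i v) × JY v) :
    ‖ee Q codim α β E‖ ^ 2 = (Q v : ℝ) ^ dd n codim dY E := by
  unfold ee dd
  rw [norm_mul, norm_prod, mul_pow, ← Finset.prod_pow, pow_add, ← prod_pow_eq_pow_sum, hβ]
  congr 1
  exact prod_congr rfl fun i _ => eg_norm (hα i v) (E.1 i)

theorem norm_le_of_sq {x : ℂ} {q Q dg w : ℕ} (hQ : Q = q ^ dg) (h : ‖x‖ ^ 2 = (Q : ℝ) ^ (2 * w)) :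
    ‖x‖ ≤ ((q : ℝ) ^ w) ^ dg := by
  have h1 : ‖x‖ ^ 2 = (((q : ℝ) ^ w) ^ dg) ^ 2 := by
    rw [h, hQ]
    push_cast
    rw [← pow_mul, ← pow_mul, ← pow_mul]
    congr 1
    ring
  exact ((pow_left_inj₀ (norm_nonneg _) (by positivity) two_ne_zero).1 h1).le

theorem card_index (hbJ : ∀ i v, Fintype.card (J i v) ≤ b) (hbY : ∀ v, Fintype.card (JY v) ≤ b)
    (v : P) : Fintype.card ((∀ i, K i ⊕ J i v) × JY v) ≤ (∏ i, (Fintype.card (K i) + b)) * b := by
  classical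
  rw [Fintype.card_prod, Fintype.card_pi]
  refine Nat.mul_le_mul (Finset.prod_le_prod' fun i _ => ?_) (hbY v)
  rw [Fintype.card_sum]
  exact Nat.add_le_add_left (hbJ i v) _

theorem qpow_lt {q : ℕ} (hq : 1 < q) {w D : ℕ} {s : ℝ} (hs : ((w + D : ℕ) : ℝ) < s) :
    (q : ℝ) ^ w * ‖(q : ℂ) ^ (-(s : ℂ))‖ * (q : ℝ) ^ D < 1 := by
  have hq0 : (0 : ℝ) < q := by exact_mod_cast (by omega : 0 < q)
  have hq1 : (1 : ℝ) < q := by exact_mod_cast hq
  have h1 : (q : ℂ) = ((q : ℝ) : ℂ) := by push_cast; rfl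
  rw [h1, Complex.norm_cpow_eq_rpow_re_of_pos hq0]
  simp only [Complex.neg_re, Complex.ofReal_re]
  rw [← Real.rpow_natCast, ← Real.rpow_natCast, ← Real.rpow_add hq0, ← Real.rpow_add hq0]
  refine Real.rpow_lt_one_of_one_lt_of_neg hq1 ?_
  push_cast at hs
  linarith

theorem qpow_shift {q : ℕ} (hq : 1 < q) (m : ℕ) (s : ℂ) :
    (q : ℂ) ^ m * (q : ℂ) ^ (-s) = (q : ℂ) ^ (-(s - m)) := by
  have hqc : (q : ℂ) ≠ 0 := by exact_mod_cast (by omega : q ≠ 0)
  rw [← Complex.cpow_natCast, ← Complex.cpow_add _ _ hqc]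
  congr 1
  ring

/-- The factorisation of the `L`-function. -/
theorem key (hq : 1 < q) (hP : IsBase q D dg) (hQ : ∀ v, Q v = q ^ dg v) (hd : ∀ i, 0 < d i)
    (hε : ∀ i v e, ¬ d i ∣ ε i v e) (hα : ∀ i v e, ‖α i v e‖ ^ 2 = (Q v : ℝ) ^ n i)
    (hβ : ∀ v e, ‖β v e‖ ^ 2 = (Q v : ℝ) ^ dY v e) (hbJ : ∀ i v, Fintype.card (J i v) ≤ b)
    (hbY : ∀ v, Fintype.card (JY v) ≤ b) {w : ℕ}
    (hpart : ∀ j : ι → ℕ, (∃ i, ¬ d i ∣ j i) →
      OrderAt (prt dg Q n d codim α ε dY β (2 * w) j) (1 / (q : ℂ) ^ (w + D)) 0) :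
    ∃ Ψ : ℂ → ℂ, HasPole Ψ ((w + D : ℕ) : ℝ) 0 ∧ ∀ s : ℝ, ((w + D : ℕ) : ℝ) < s →
      Lf q (tot dg Q n codim α dY β (2 * w)) s =
        (∏ k ∈ fs (fun k : ∀ i, K i => ∑ i, codim i (k i) ≤ w),
          Lf q (yp dg dY β (2 * (w - ∑ i, codim i (k i))))
            ((s : ℂ) - (∑ i, codim i (k i) : ℕ))) * Ψ s := by
  classical
  have hcard := card_index (K := K) hbJ hbY
  have hbd : ∀ (j : ι → ℕ) (v : P) (E : (∀ i, K i ⊕ J i v) × JY v),
      (dd n codim dY E = 2 * w ∧ ∀ i, exq (ε i v) (E.1 i) ≡ j i [MOD d i]) →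
      ‖ee Q codim α β E‖ ≤ ((q : ℝ) ^ w) ^ dg v := by
    intro j v E hE
    refine norm_le_of_sq (hQ v) ?_
    rw [ee_norm hα hβ, hE.1]
  refine ⟨fun s => ∏ j ∈ (Fintype.piFinset (fun i => range (d i))).erase 0,
    Lf q (prt dg Q n d codim α ε dY β (2 * w) j) s, ?_, ?_⟩
  · have h1 := HasPole.prod ((Fintype.piFinset (fun i => range (d i))).erase 0)
      (Φ := fun j s => Lf q (prt dg Q n d codim α ε dY β (2 * w) j) s)
      (a := ((w + D : ℕ) : ℝ)) (r := fun _ => 0) (by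
        intro j hj
        obtain ⟨hj0, hj1⟩ := mem_erase.1 hj
        have hj2 : ∃ i, ¬ d i ∣ j i := by
          by_contra h4
          push Not at h4
          apply hj0
          funext i
          exact Nat.eq_zero_of_dvd_of_lt (h4 i) (mem_range.1 (Fintype.mem_piFinset.1 hj1 i))
        exact hasPole_zero hq hP hcard (hbd j) (hpart j hj2))
    rwa [sum_const_zero] at h1
  · intro s hs
    set x := (q : ℂ) ^ (-(s : ℂ)) with hx
    have hlt := qpow_lt hq hs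
    have hmul : ∀ j : ι → ℕ, Multipliable fun v =>
        ((prt dg Q n d codim α ε dY β (2 * w) j v).eval x)⁻¹ := fun j =>
      multipliable_fac hq hP hcard (by positivity) (hbd j) hlt
    have h1 : Lf q (tot dg Q n codim α dY β (2 * w)) s =
        ∏ j ∈ Fintype.piFinset (fun i => range (d i)),
          Lf q (prt dg Q n d codim α ε dY β (2 * w) j) s := by
      unfold Lf
      rw [← Multipliable.tprod_finsetProd fun j _ => hmul j]
      refine tprod_congr fun v => ?_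
      rw [tot_eq (ε := ε) hd, eval_prod, Finset.prod_inv_distrib]
    have h2 : (0 : ι → ℕ) ∈ Fintype.piFinset (fun i => range (d i)) :=
      Fintype.mem_piFinset.2 fun i => mem_range.2 (hd i)
    rw [h1, ← mul_prod_erase _ _ h2]
    congr 1
    -- the trivial character
    have hmulY : ∀ k ∈ fs (fun k : ∀ i, K i => 2 * ∑ i, codim i (k i) ≤ 2 * w),
        Multipliable fun v =>
          ((yp dg dY β (2 * w - 2 * ∑ i, codim i (k i)) v).eval
            ((q : ℂ) ^ (∑ i, codim i (k i)) * x))⁻¹ := by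
      intro k hk
      have hk' : ∑ i, codim i (k i) ≤ w := by
        have := mem_fs.1 hk
        omega
      refine multipliable_fac (R0 := (q : ℝ) ^ (w - ∑ i, codim i (k i))) hq hP hbY (by positivity)
        ?_ ?_
      · intro v e he
        refine norm_le_of_sq (hQ v) ?_
        rw [hβ, he, Nat.mul_sub]
      · refine lt_of_le_of_lt (le_of_eq ?_) hlt
        rw [norm_mul, norm_pow, Complex.norm_natCast]
        have h3 : (q : ℝ) ^ w = (q : ℝ) ^ (w - ∑ i, codim i (k i)) *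
            (q : ℝ) ^ (∑ i, codim i (k i)) := by
          rw [← pow_add, Nat.sub_add_cancel hk']
        rw [h3]
        ring
    have h3 : Lf q (prt dg Q n d codim α ε dY β (2 * w) 0) s =
        ∏ k ∈ fs (fun k : ∀ i, K i => 2 * ∑ i, codim i (k i) ≤ 2 * w),
          ∏' v, ((yp dg dY β (2 * w - 2 * ∑ i, codim i (k i)) v).eval
            ((q : ℂ) ^ (∑ i, codim i (k i)) * x))⁻¹ := by
      unfold Lf
      rw [← Multipliable.tprod_finsetProd hmulY]
      refine tprod_congr fun v => ?_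
      rw [prt_zero hQ hε, eval_prod, ← Finset.prod_inv_distrib]
      refine prod_congr rfl fun k _ => ?_
      rw [eval_comp, eval_mul, eval_C, eval_X]
    rw [h3]
    have h4 : fs (fun k : ∀ i, K i => 2 * ∑ i, codim i (k i) ≤ 2 * w) =
        fs (fun k : ∀ i, K i => ∑ i, codim i (k i) ≤ w) := by
      ext k
      rw [mem_fs, mem_fs]
      omega
    rw [h4]
    refine prod_congr rfl fun k _ => ?_
    unfold Lf
    refine tprod_congr fun v => ?_
    rw [hx, qpow_shift hq, Nat.mul_sub]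

/-- The orders of the poles. -/
theorem orders (hq : 1 < q) (hP : IsBase q D dg) (hQ : ∀ v, Q v = q ^ dg v) (hd : ∀ i, 0 < d i)
    (hε : ∀ i v e, ¬ d i ∣ ε i v e) (hα : ∀ i v e, ‖α i v e‖ ^ 2 = (Q v : ℝ) ^ n i)
    (hβ : ∀ v e, ‖β v e‖ ^ 2 = (Q v : ℝ) ^ dY v e) (hbJ : ∀ i v, Fintype.card (J i v) ≤ b)
    (hbY : ∀ v, Fintype.card (JY v) ≤ b)
    (hpart : ∀ (w : ℕ) (j : ι → ℕ), (∃ i, ¬ d i ∣ j i) →
      OrderAt (prt dg Q n d codim α ε dY β (2 * w) j) (1 / (q : ℂ) ^ (w + D)) 0)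
    (k0 : ∀ i, K i) (hk0 : ∀ i k, codim i k = 0 ↔ k = k0 i) (r : ℕ → ℤ) :
    (∀ w : ℕ, HasPole (Lf q (tot dg Q n codim α dY β (2 * w))) ((w + D : ℕ) : ℝ)
      (∑ k ∈ fs (fun k : ∀ i, K i => ∑ i, codim i (k i) ≤ w), r (w - ∑ i, codim i (k i)))) ↔
    ∀ w : ℕ, HasPole (Lf q (yp dg dY β (2 * w))) ((w + D : ℕ) : ℝ) (r w) := by
  classical
  have hshift : ∀ (w : ℕ) (k : ∀ i, K i), ∑ i, codim i (k i) ≤ w →
      HasPole (Lf q (yp dg dY β (2 * (w - ∑ i, codim i (k i)))))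
        ((w - ∑ i, codim i (k i) + D : ℕ) : ℝ) (r (w - ∑ i, codim i (k i))) →
      HasPole (fun s => Lf q (yp dg dY β (2 * (w - ∑ i, codim i (k i))))
        (s - (∑ i, codim i (k i) : ℕ))) ((w + D : ℕ) : ℝ) (r (w - ∑ i, codim i (k i))) := by
    intro w k hk h
    have h1 := h.shift ((∑ i, codim i (k i) : ℕ) : ℝ)
    have h2 : ((w - ∑ i, codim i (k i) + D : ℕ) : ℝ) + ((∑ i, codim i (k i) : ℕ) : ℝ) =
        ((w + D : ℕ) : ℝ) := by
      rw [← Nat.cast_add]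
      congr 1
      omega
    rw [h2] at h1
    exact h1.congr fun s _ => by rw [Complex.ofReal_natCast]
  constructor
  · intro h w
    induction w using Nat.strong_induction_on with
    | _ w ih =>
      obtain ⟨Ψ, hΨ, he⟩ := key hq hP hQ hd hε hα hβ hbJ hbY (hpart w)
      have hmem : k0 ∈ fs (fun k : ∀ i, K i => ∑ i, codim i (k i) ≤ w) := by
        rw [mem_fs]
        have : ∑ i, codim i (k0 i) = 0 := sum_eq_zero fun i _ => (hk0 i _).2 rfl
        omega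
      have hz : ∑ i, codim i (k0 i) = 0 := sum_eq_zero fun i _ => (hk0 i _).2 rfl
      have hrest := HasPole.prod
        ((fs (fun k : ∀ i, K i => ∑ i, codim i (k i) ≤ w)).erase k0)
        (Φ := fun k s => Lf q (yp dg dY β (2 * (w - ∑ i, codim i (k i))))
          (s - (∑ i, codim i (k i) : ℕ))) (a := ((w + D : ℕ) : ℝ))
        (r := fun k => r (w - ∑ i, codim i (k i))) (by
          intro k hk
          obtain ⟨hk1, hk2⟩ := mem_erase.1 hk
          have hk3 := mem_fs.1 hk2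
          have hpos : 0 < ∑ i, codim i (k i) := by
            rw [Nat.pos_iff_ne_zero]
            intro h0
            apply hk1
            funext i
            exact (hk0 i _).1 ((sum_eq_zero_iff.1 h0) i (mem_univ i))
          exact hshift w k hk3 (ih _ (by omega)))
      have h1 := (h w).of_mul (hrest.mul hΨ) (Φ := Lf q (yp dg dY β (2 * w))) (by
        intro s hs
        rw [he s hs, ← mul_prod_erase _ _ hmem, hz, Nat.sub_zero, Nat.cast_zero, sub_zero,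
          mul_assoc])
      have h2 : (∑ k ∈ fs (fun k : ∀ i, K i => ∑ i, codim i (k i) ≤ w),
          r (w - ∑ i, codim i (k i))) - (∑ k ∈ (fs (fun k : ∀ i, K i =>
            ∑ i, codim i (k i) ≤ w)).erase k0, r (w - ∑ i, codim i (k i)) + 0) = r w := by
        rw [← add_sum_erase _ _ hmem, hz, Nat.sub_zero]
        ring
      rwa [h2] at h1
  · intro h w
    obtain ⟨Ψ, hΨ, he⟩ := key hq hP hQ hd hε hα hβ hbJ hbY (hpart w)
    have h1 := HasPole.prod (fs (fun k : ∀ i, K i => ∑ i, codim i (k i) ≤ w))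
      (Φ := fun k s => Lf q (yp dg dY β (2 * (w - ∑ i, codim i (k i))))
          (s - (∑ i, codim i (k i) : ℕ))) (a := ((w + D : ℕ) : ℝ))
      (r := fun k => r (w - ∑ i, codim i (k i)))
      (fun k hk => by
        have hk3 := mem_fs.1 hk
        exact hshift w k hk3 (h _))
    have h2 := h1.mul hΨ
    rw [add_zero] at h2
    exact h2.congr fun s hs => (he s hs).symm

end Pool.Agent.U926.FE
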