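import Pool.Agent.U926.FE.Bnd

/-!
# Orders of poles on the real axis
-/

set_option autoImplicit false

namespace Pool.Agent.U926.FE

open Finset Polynomial Filter Topology Pool.Agent.N876.UV

/-- `(s - a) ^ r Φ(s)` has a finite limit different from zero for real `s → a`, `s > a`. -/
def HasPole (Φ : ℂ → ℂ) (a : ℝ) (r : ℤ) : Prop :=
  ∃ c : ℂ, c ≠ 0 ∧ Tendsto (fun s : ℝ => ((s : ℂ) - a) ^ r * Φ s) (𝓝[>] a) (𝓝 c)

theorem ne_of_mem {a s : ℝ} (hs : s ∈ Set.Ioi a) : (s : ℂ) - a ≠ 0 := by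
  have h1 : a < s := hs
  rw [← Complex.ofReal_sub]
  exact_mod_cast (sub_pos.2 h1).ne'

theorem HasPole.mul {Φ Ψ : ℂ → ℂ} {a : ℝ} {r r' : ℤ} (h : HasPole Φ a r) (h' : HasPole Ψ a r') :
    HasPole (fun s => Φ s * Ψ s) a (r + r') := by
  obtain ⟨c, hc, hlim⟩ := h
  obtain ⟨c', hc', hlim'⟩ := h'
  refine ⟨c * c', mul_ne_zero hc hc', (hlim.mul hlim').congr' ?_⟩
  filter_upwards [self_mem_nhdsWithin] with s hs
  rw [zpow_add₀ (ne_of_mem hs)]
  ring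

theorem HasPole.congr {Φ Ψ : ℂ → ℂ} {a : ℝ} {r : ℤ} (h : HasPole Φ a r)
    (he : ∀ s : ℝ, a < s → Φ s = Ψ s) : HasPole Ψ a r := by
  obtain ⟨c, hc, hlim⟩ := h
  refine ⟨c, hc, hlim.congr' ?_⟩
  filter_upwards [self_mem_nhdsWithin] with s hs
  rw [he s hs]

/-- division -/
theorem HasPole.of_mul {Φ Ψ Θ : ℂ → ℂ} {a : ℝ} {r r' : ℤ} (h : HasPole Θ a r')
    (h' : HasPole Ψ a r) (he : ∀ s : ℝ, a < s → Θ s = Φ s * Ψ s) : HasPole Φ a (r' - r) := by
  obtain ⟨c, hc, hlim⟩ := h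
  obtain ⟨c', hc', hlim'⟩ := h'
  refine ⟨c / c', div_ne_zero hc hc', (hlim.div hlim' hc').congr' ?_⟩
  have h1 : ∀ᶠ s : ℝ in 𝓝[>] a, ((s : ℂ) - a) ^ r * Ψ s ≠ 0 := hlim'.eventually_ne hc'
  filter_upwards [self_mem_nhdsWithin, h1] with s hs h2
  have h3 := ne_of_mem hs
  have h4 : Ψ s ≠ 0 := right_ne_zero_of_mul h2
  have h5 : ((s : ℂ) - a) ^ r ≠ 0 := zpow_ne_zero _ h3
  show (((s : ℂ) - a) ^ r' * Θ s) / (((s : ℂ) - a) ^ r * Ψ s) = _
  rw [he s hs, zpow_sub₀ h3]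
  field_simp

theorem HasPole.prod {J : Type*} (S : Finset J) {Φ : J → ℂ → ℂ} {a : ℝ} {r : J → ℤ}
    (h : ∀ j ∈ S, HasPole (Φ j) a (r j)) : HasPole (fun s => ∏ j ∈ S, Φ j s) a (∑ j ∈ S, r j) := by
  classical
  induction S using Finset.induction_on with
  | empty =>
    simp only [prod_empty, sum_empty]
    refine ⟨1, one_ne_zero, ?_⟩
    simp only [zpow_zero, mul_one]
    exact tendsto_const_nhds
  | insert j s hj ih =>
    rw [sum_insert hj]
    have h1 := (h j (mem_insert_self _ _)).mul (ih fun j hj => h j (mem_insert_of_mem hj))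
    refine h1.congr fun s _ => ?_
    rw [prod_insert hj]

theorem HasPole.shift {Φ : ℂ → ℂ} {a : ℝ} {r : ℤ} (m : ℝ) (h : HasPole Φ a r) :
    HasPole (fun s => Φ (s - m)) (a + m) r := by
  obtain ⟨c, hc, hlim⟩ := h
  refine ⟨c, hc, ?_⟩
  have h1 : Tendsto (fun s : ℝ => s - m) (𝓝[>] (a + m)) (𝓝[>] a) := by
    refine tendsto_nhdsWithin_iff.2 ⟨?_, ?_⟩
    · have h2 : Tendsto (fun s : ℝ => s - m) (𝓝 (a + m)) (𝓝 (a + m - m)) :=
        (continuous_id.sub continuous_const).tendsto _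
      rw [add_sub_cancel_right] at h2
      exact h2.mono_left nhdsWithin_le_nhds
    · filter_upwards [self_mem_nhdsWithin] with s hs
      have h3 : a + m < s := hs
      show a < s - m
      linarith
  refine (hlim.comp h1).congr fun s => ?_
  simp only [Function.comp]
  push_cast
  congr 2
  ring

theorem hasPole_const {c : ℂ} (hc : c ≠ 0) (a : ℝ) : HasPole (fun _ => c) a 0 := by
  refine ⟨c, hc, ?_⟩
  simp only [zpow_zero, one_mul]
  exact tendsto_const_nhds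

/-- the function `q ^ (-s)` -/
theorem tendsto_qpow {q : ℕ} (hq : 1 < q) (a : ℕ) {S : Set ℂ}
    (hS : ∀ x : ℂ, ‖x‖ < ((q : ℝ) ^ a)⁻¹ → x ∈ S) :
    Tendsto (fun s : ℝ => (q : ℂ) ^ (-(s : ℂ))) (𝓝[>] (a : ℝ))
      (𝓝[S ∩ {(1 : ℂ) / (q : ℂ) ^ a}ᶜ] ((1 : ℂ) / (q : ℂ) ^ a)) := by
  have hq0 : (0 : ℝ) < q := by exact_mod_cast (by omega : 0 < q)
  have hq1 : (1 : ℝ) < q := by exact_mod_cast hq
  have hqc : (q : ℂ) ≠ 0 := by exact_mod_cast hq0.ne'
  have hn : ∀ s : ℝ, ‖(q : ℂ) ^ (-(s : ℂ))‖ = (q : ℝ) ^ (-s) := by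
    intro s
    have h1 : (q : ℂ) = ((q : ℝ) : ℂ) := by push_cast; rfl
    rw [h1, Complex.norm_cpow_eq_rpow_re_of_pos hq0]
    simp
  have hlt : ∀ s : ℝ, (a : ℝ) < s → ‖(q : ℂ) ^ (-(s : ℂ))‖ < ((q : ℝ) ^ a)⁻¹ := by
    intro s hs
    rw [hn, Real.rpow_neg hq0.le, ← Real.rpow_natCast]
    exact inv_strictAnti₀ (Real.rpow_pos_of_pos hq0 _) (Real.rpow_lt_rpow_of_exponent_lt hq1 hs)
  refine tendsto_nhdsWithin_iff.2 ⟨?_, ?_⟩
  · have h1 : ContinuousAt (fun s : ℝ => (q : ℂ) ^ (-(s : ℂ))) (a : ℝ) := by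
      refine ContinuousAt.comp (g := fun z : ℂ => (q : ℂ) ^ z) (f := fun s : ℝ => -(s : ℂ)) ?_ ?_
      · exact continuousAt_const_cpow hqc
      · exact (Complex.continuous_ofReal.neg).continuousAt
    have h2 : (q : ℂ) ^ (-((a : ℝ) : ℂ)) = (1 : ℂ) / (q : ℂ) ^ a := by
      rw [Complex.ofReal_natCast, Complex.cpow_neg, Complex.cpow_natCast, one_div]
    have h3 := h1.tendsto
    rw [h2] at h3
    exact h3.mono_left nhdsWithin_le_nhds
  · filter_upwards [self_mem_nhdsWithin] with s hs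
    have h1 := hlt s hs
    refine ⟨hS _ h1, ?_⟩
    intro h2
    have h3 : (q : ℂ) ^ (-(s : ℂ)) = (1 : ℂ) / (q : ℂ) ^ a := h2
    rw [h3, norm_div, norm_one, norm_pow, Complex.norm_natCast, one_div] at h1
    exact lt_irrefl _ h1

section fac

variable {P : Type} {q D : ℕ} {dg : P → ℕ} {J : P → Type} [∀ v, Fintype (J v)]
  {pr : ∀ v, J v → Prop} {β : ∀ v, J v → ℂ} {b : ℕ}

/-- the `L`-function -/
noncomputable def Lf (q : ℕ) (p : P → ℂ[X]) (s : ℂ) : ℂ := ∏' v, ((p v).eval ((q : ℂ) ^ (-s)))⁻¹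

/-- Euler products of order zero have neither a zero nor a pole at the point. -/
theorem hasPole_zero (hq : 1 < q) (hP : IsBase q D dg) (hb : ∀ v, Fintype.card (J v) ≤ b) {w : ℕ}
    (hβ : ∀ v e, pr v e → ‖β v e‖ ≤ ((q : ℝ) ^ w) ^ dg v)
    (ho : OrderAt (fun v => fac (pr v) (β v) (dg v)) (1 / (q : ℂ) ^ (w + D)) 0) :
    HasPole (Lf q fun v => fac (pr v) (β v) (dg v)) ((w + D : ℕ) : ℝ) 0 := by
  have hq0 : (0 : ℝ) < q := by exact_mod_cast (by omega : 0 < q)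
  obtain ⟨L, hL, A, B, hA, hB, hAB, hn⟩ := ho
  have hm : A.rootMultiplicity (1 / (q : ℂ) ^ (w + D)) =
      B.rootMultiplicity (1 / (q : ℂ) ^ (w + D)) := by exact_mod_cast sub_eq_zero.1 hn
  have hval : ∀ x : ℂ, ‖x‖ < ((q : ℝ) ^ (w + D))⁻¹ →
      HasProd (fun v => ((fac (pr v) (β v) (dg v)).eval x)⁻¹) (ev L x) ∧
        B.eval x * ev L x = A.eval x := by
    intro x hx
    obtain ⟨y, hxy, hy⟩ := exists_between hx
    have hy0 : 0 < y := (norm_nonneg x).trans_lt hxy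
    have hz : (q : ℝ) ^ w * y * (q : ℝ) ^ D < 1 := by
      have h1 : (q : ℝ) ^ w * y * (q : ℝ) ^ D = y * (q : ℝ) ^ (w + D) := by
        rw [pow_add]
        ring
      rw [h1]
      rwa [lt_inv_comm₀ hy0 (by positivity), ← one_div, lt_div_iff₀' hy0] at hy
    obtain ⟨C, hC⟩ := Gv_bound (pr := pr) (β := β) hq hP hb (by positivity) hβ hy0.le hz
    exact ⟨euler_hasProd (fun v => Gv_mul hP.pos v) hy0 hC hL hxy,
      euler_rat (fun v => Gv_mul hP.pos v) hy0 hC hL hAB hxy⟩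
  obtain ⟨c, hc, hlim⟩ := tendsto_ratio hA hB hm (F := fun x => ev L x)
    (S := {x | ‖x‖ < ((q : ℝ) ^ (w + D))⁻¹}) (fun x hx => (hval x hx).2)
  refine ⟨c, hc, ?_⟩
  have h1 := hlim.comp (tendsto_qpow hq (w + D) (S := {x | ‖x‖ < ((q : ℝ) ^ (w + D))⁻¹})
    fun x hx => hx)
  refine h1.congr' ?_
  have h2 := tendsto_qpow hq (w + D) (S := {x | ‖x‖ < ((q : ℝ) ^ (w + D))⁻¹}) fun x hx => hx
  filter_upwards [h2.eventually self_mem_nhdsWithin] with s hs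
  rw [zpow_zero, one_mul]
  unfold Lf
  exact ((hval _ hs.1).1.tprod_eq).symm

end fac

/-- twists of the zeta function of the base -/
theorem twist_pole {P : Type} {q D : ℕ} {dg : P → ℕ} (hq : 1 < q) (hP : IsBase q D dg) {α : ℂ}
    (hα : ‖α‖ = 1) :
    HasPole (fun s => ∏' v, (1 - (α * (q : ℂ) ^ (-s)) ^ dg v)⁻¹) (D : ℝ)
      (if α = 1 then 1 else 0) := by
  obtain ⟨hdeg, hfin, C, hcount⟩ := hP
  have hqr : (1 : ℝ) < (q : ℝ) := by exact_mod_cast hq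
  have hq0 : (0 : ℝ) < (q : ℝ) := by linarith
  have hqc : (q : ℂ) ≠ 0 := by exact_mod_cast hq0.ne'
  have hsq1 : 1 < Real.sqrt q := by
    rw [Real.lt_sqrt (by norm_num)]
    linarith
  have hsq : 0 < Real.sqrt q := by linarith
  let E : ℕ → ℂ := fun m => if hm : 0 < m then (∑ v ∈ (hfin m hm).toFinset, (dg v : ℂ)) -
    (((q : ℝ) ^ D : ℝ) : ℂ) ^ m else 0
  have hN : ∀ m (hm : 0 < m), (∑ v ∈ (hfin m hm).toFinset, (dg v : ℂ)) =
      (((q : ℝ) ^ D : ℝ) : ℂ) ^ m + E m := by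
    intro m hm
    simp only [E, dif_pos hm]
    ring
  have hC1 : 0 ≤ |C| := abs_nonneg C
  have hE : ∀ m, 0 < m → ‖E m‖ ≤ |C| * ((q : ℝ) ^ D / Real.sqrt q) ^ m := by
    intro m hm
    have h1 : E m = (((∑ v ∈ (hfin m hm).toFinset, (dg v : ℝ)) - ((q : ℝ) ^ D) ^ m : ℝ) : ℂ) := by
      simp only [E, dif_pos hm]
      push_cast
      rfl
    rw [h1, Complex.norm_real, Real.norm_eq_abs]
    refine (hcount m hm).trans (mul_le_mul_of_nonneg_right (le_abs_self C) ?_)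
    exact pow_nonneg (div_nonneg (by positivity) hsq.le) _
  have hR : (1 : ℝ) ≤ (q : ℝ) ^ D := one_le_pow₀ hqr.le
  have hSR : (q : ℝ) ^ D / Real.sqrt q ≤ (q : ℝ) ^ D := div_le_self (by positivity) hsq1.le
  set S := (q : ℝ) ^ D / Real.sqrt q with hSdef
  have hSpos : 0 < S := by positivity
  have hnorm : ∀ s : ℝ, ‖α * (q : ℂ) ^ (-(s : ℂ))‖ = (q : ℝ) ^ (-s) := by
    intro s
    have h1 : (q : ℂ) = ((q : ℝ) : ℂ) := by push_cast; rfl
    rw [norm_mul, hα, one_mul, h1, Complex.norm_cpow_eq_rpow_re_of_pos hq0]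
    simp
  -- the value
  have hval : ∀ s : ℝ, (D : ℝ) < s → ∏' v, (1 - (α * (q : ℂ) ^ (-(s : ℂ))) ^ dg v)⁻¹ =
      (1 - (((q : ℝ) ^ D : ℝ) : ℂ) * (α * (q : ℂ) ^ (-(s : ℂ))))⁻¹ *
        Complex.exp (Pool.Agent.TH117.BL.Gfun E (α * (q : ℂ) ^ (-(s : ℂ)))) := by
    intro s hs
    have h1 : ‖α * (q : ℂ) ^ (-(s : ℂ))‖ * (q : ℝ) ^ D < 1 := by
      rw [hnorm, ← Real.rpow_natCast, ← Real.rpow_add hq0]
      exact Real.rpow_lt_one_of_one_lt_of_neg hqr (by linarith)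
    exact (Pool.Agent.TH117.BL.hasProd_LW dg hdeg hfin ((q : ℝ) ^ D) |C| S hR hSpos.le hSR
      hC1 E hE hN _ h1).tprod_eq
  -- the limit
  have hcont : ContinuousAt (fun s : ℂ => α * (q : ℂ) ^ (-s)) (D : ℂ) :=
    continuousAt_const.mul (continuousAt_id.neg.const_cpow (Or.inl hqc))
  have hxD : ‖α * (q : ℂ) ^ (-(D : ℂ))‖ * S < 1 := by
    have h1 := hnorm (D : ℝ)
    push_cast at h1
    rw [h1, Real.rpow_neg hq0.le, Real.rpow_natCast, hSdef, ← mul_div_assoc,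
      inv_mul_cancel₀ (by positivity), div_lt_one hsq]
    exact hsq1
  have hG : ContinuousAt (fun s : ℂ => Complex.exp (Pool.Agent.TH117.BL.Gfun E
      (α * (q : ℂ) ^ (-s)))) (D : ℂ) := by
    refine Complex.continuous_exp.continuousAt.comp ?_
    refine ContinuousAt.comp (g := Pool.Agent.TH117.BL.Gfun E)
      (f := fun s : ℂ => α * (q : ℂ) ^ (-s)) ?_ hcont
    exact Pool.Agent.TH117.BL.continuousAt_G E |C| S hSpos hC1 hE _ hxD
  have hlog : Complex.log q ≠ 0 := by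
    have h1 : (q : ℂ) = ((q : ℝ) : ℂ) := by push_cast; rfl
    rw [h1, ← Complex.ofReal_log hq0.le]
    exact_mod_cast (Real.log_pos hqr).ne'
  set g : ℂ → ℂ := fun s => 1 - (((q : ℝ) ^ D : ℝ) : ℂ) * (α * (q : ℂ) ^ (-s)) with hg
  have hgD : g D = 1 - α := by
    simp only [hg]
    rw [Complex.cpow_neg, Complex.cpow_natCast]
    push_cast
    field_simp
  have hcoe : Tendsto (fun s : ℝ => (s : ℂ)) (𝓝[>] (D : ℝ)) (𝓝[≠] (D : ℂ)) := by
    refine tendsto_nhdsWithin_iff.2 ⟨?_, ?_⟩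
    · have h1 : Tendsto (fun s : ℝ => (s : ℂ)) (𝓝 (D : ℝ)) (𝓝 (((D : ℝ) : ℂ))) :=
        Complex.continuous_ofReal.tendsto _
      rw [Complex.ofReal_natCast] at h1
      exact h1.mono_left nhdsWithin_le_nhds
    · filter_upwards [self_mem_nhdsWithin] with s hs
      have hs' : (D : ℝ) < s := hs
      intro h
      have h2 : ((s : ℝ) : ℂ) = ((D : ℝ) : ℂ) := by
        rw [Complex.ofReal_natCast]
        exact h
      exact hs'.ne' (Complex.ofReal_injective h2)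
  have hder : HasDerivAt g (α * Complex.log q) (D : ℂ) := by
    have h1 : HasDerivAt (fun s : ℂ => (q : ℂ) ^ (-s)) ((q : ℂ) ^ (-(D : ℂ)) * Complex.log q * (-1))
        (D : ℂ) := by
      have h2 := (hasDerivAt_id (D : ℂ)).neg.const_cpow (c := (q : ℂ)) (Or.inl hqc)
      exact h2
    have h3 := ((h1.const_mul α).const_mul (((q : ℝ) ^ D : ℝ) : ℂ)).const_sub 1
    have h4 : α * Complex.log q = -((((q : ℝ) ^ D : ℝ) : ℂ) *
        (α * ((q : ℂ) ^ (-(D : ℂ)) * Complex.log q * (-1)))) := by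
      rw [Complex.cpow_neg, Complex.cpow_natCast]
      push_cast
      field_simp
    rw [h4]
    exact h3
  by_cases h : α = 1
  · rw [if_pos h]
    rw [h, one_mul] at hder
    have hslope := (hasDerivAt_iff_tendsto_slope.1 hder).inv₀ hlog
    refine ⟨(Complex.log q)⁻¹ *
      Complex.exp (Pool.Agent.TH117.BL.Gfun E (α * (q : ℂ) ^ (-(D : ℂ)))),
      mul_ne_zero (inv_ne_zero hlog) (Complex.exp_ne_zero _), ?_⟩
    have h1 := (hslope.mul (hG.tendsto.mono_left nhdsWithin_le_nhds)).comp hcoe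
    refine h1.congr' ?_
    filter_upwards [self_mem_nhdsWithin] with s hs
    have hs' : (D : ℝ) < s := hs
    simp only [Function.comp]
    have h0 : g D = 0 := by rw [hgD, h, sub_self]
    rw [hval s hs', slope_def_field, h0, sub_zero, inv_div, zpow_one,
      Complex.ofReal_natCast, div_eq_mul_inv, mul_assoc]
  · rw [if_neg h]
    have hne : g D ≠ 0 := by
      rw [hgD, sub_ne_zero]
      exact fun h' => h h'.symm
    refine ⟨(g D)⁻¹ * Complex.exp (Pool.Agent.TH117.BL.Gfun E (α * (q : ℂ) ^ (-(D : ℂ)))),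
      mul_ne_zero (inv_ne_zero hne) (Complex.exp_ne_zero _), ?_⟩
    have h1 := (((hder.continuousAt.inv₀ hne).mul hG).tendsto.mono_left
      (nhdsWithin_le_nhds (s := {(D : ℂ)}ᶜ))).comp hcoe
    refine h1.congr' ?_
    filter_upwards [self_mem_nhdsWithin] with s hs
    have hs' : (D : ℝ) < s := hs
    simp only [Function.comp]
    rw [hval s hs', zpow_zero, one_mul]
    rfl

/-- one eigenvalue of a constant family -/
theorem const_pole {P : Type} {q D : ℕ} {dg : P → ℕ} (hq : 1 < q) (hP : IsBase q D dg) {γ : ℂ}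
    {j : ℕ} (hγ : ‖γ‖ = (q : ℝ) ^ j) :
    HasPole (fun s => ∏' v, (1 - (γ * (q : ℂ) ^ (-s)) ^ dg v)⁻¹) ((j + D : ℕ) : ℝ)
      (if γ = (q : ℂ) ^ j then 1 else 0) := by
  have hq0 : (0 : ℝ) < (q : ℝ) := by exact_mod_cast (by omega : 0 < q)
  have hqc : (q : ℂ) ≠ 0 := by exact_mod_cast hq0.ne'
  have hqj : (q : ℂ) ^ j ≠ 0 := pow_ne_zero _ hqc
  have h1 : ‖γ / (q : ℂ) ^ j‖ = 1 := by
    rw [norm_div, hγ, norm_pow, Complex.norm_natCast]
    exact div_self (by positivity)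
  have h2 := (twist_pole hq hP h1).shift (j : ℝ)
  have h3 : (D : ℝ) + (j : ℝ) = ((j + D : ℕ) : ℝ) := by
    push_cast
    ring
  have h4 : (γ / (q : ℂ) ^ j = 1) ↔ γ = (q : ℂ) ^ j := div_eq_one_iff_eq hqj
  rw [h3] at h2
  simp only [h4] at h2
  refine h2.congr fun s _ => ?_
  refine tprod_congr fun v => ?_
  have h5 : γ / (q : ℂ) ^ j * (q : ℂ) ^ (-((s : ℂ) - ((j : ℝ) : ℂ))) = γ * (q : ℂ) ^ (-(s : ℂ)) := by
    have h6 : (-((s : ℂ) - ((j : ℝ) : ℂ))) = (j : ℂ) + (-(s : ℂ)) := by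
      push_cast
      ring
    rw [h6, Complex.cpow_add _ _ hqc, Complex.cpow_natCast]
    field_simp
  rw [h5]

end Pool.Agent.U926.FE
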