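import Pool.Agent.U926.FE.Ana

/-!
# Euler products of polynomials: values
-/

set_option autoImplicit false

namespace Pool.Agent.U926.FE

open Finset Polynomial Filter Topology Pool.Agent.N876.UV

/-- the value of a power series -/
noncomputable def ev (L : PowerSeries ℂ) (x : ℂ) : ℂ := ∑' n, PowerSeries.coeff n L * x ^ n

/-- absolute convergence -/
def Ac (L : PowerSeries ℂ) (x : ℂ) : Prop := Summable fun n => ‖PowerSeries.coeff n L * x ^ n‖

theorem Bs.ac {y C : ℝ} {L : PowerSeries ℂ} (h : Bs y C L) {x : ℂ} (hx : ‖x‖ ≤ y) : Ac L x := by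
  refine Summable.of_nonneg_of_le (fun n => norm_nonneg _) (fun n => ?_) h.1
  rw [norm_mul, norm_pow]
  exact mul_le_mul_of_nonneg_left (pow_le_pow_left₀ (norm_nonneg _) hx n) (norm_nonneg _)

theorem coeff_mul_pow (L L' : PowerSeries ℂ) (x : ℂ) (n : ℕ) :
    PowerSeries.coeff n (L * L') * x ^ n = ∑ kl ∈ antidiagonal n,
      (PowerSeries.coeff kl.1 L * x ^ kl.1) * (PowerSeries.coeff kl.2 L' * x ^ kl.2) := by
  rw [PowerSeries.coeff_mul, sum_mul]
  refine sum_congr rfl fun p hp => ?_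
  rw [← mem_antidiagonal.1 hp, pow_add]
  ring

theorem ev_mul {L L' : PowerSeries ℂ} {x : ℂ} (h : Ac L x) (h' : Ac L' x) :
    ev (L * L') x = ev L x * ev L' x := by
  unfold ev
  rw [tsum_mul_tsum_eq_tsum_sum_antidiagonal_of_summable_norm h h']
  exact tsum_congr fun n => coeff_mul_pow L L' x n

theorem Ac.mul {L L' : PowerSeries ℂ} {x : ℂ} (h : Ac L x) (h' : Ac L' x) : Ac (L * L') x := by
  have h1 := summable_norm_sum_mul_antidiagonal_of_summable_norm h h'
  refine h1.congr fun n => ?_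
  rw [coeff_mul_pow]

theorem Ac.coe (p : ℂ[X]) (x : ℂ) : Ac (p : PowerSeries ℂ) x := by
  refine summable_of_ne_finset_zero (s := p.support) fun n hn => ?_
  rw [Polynomial.coeff_coe, notMem_support_iff.1 hn, zero_mul, norm_zero]

theorem ev_coe (p : ℂ[X]) (x : ℂ) : ev (p : PowerSeries ℂ) x = p.eval x := by
  unfold ev
  rw [eval_eq_sum, Polynomial.sum]
  rw [tsum_eq_sum (s := p.support)]
  · exact sum_congr rfl fun n _ => by rw [Polynomial.coeff_coe]
  · intro n hn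
    rw [Polynomial.coeff_coe, notMem_support_iff.1 hn, zero_mul]

theorem ev_one (x : ℂ) : ev 1 x = 1 := by
  have h := ev_coe 1 x
  rwa [Polynomial.coe_one, eval_one] at h

theorem Ac.one (x : ℂ) : Ac 1 x := by
  have h := Ac.coe 1 x
  rwa [Polynomial.coe_one] at h

theorem ev_prod {J : Type*} (s : Finset J) {F : J → PowerSeries ℂ} {x : ℂ}
    (h : ∀ j ∈ s, Ac (F j) x) : Ac (∏ j ∈ s, F j) x ∧ ev (∏ j ∈ s, F j) x = ∏ j ∈ s, ev (F j) x := by
  classical
  induction s using Finset.induction_on with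
  | empty => rw [prod_empty, prod_empty]; exact ⟨Ac.one x, ev_one x⟩
  | insert a s ha ih =>
    rw [prod_insert ha, prod_insert ha]
    obtain ⟨h1, h2⟩ := ih fun j hj => h j (mem_insert_of_mem hj)
    have h3 := h a (mem_insert_self _ _)
    exact ⟨h3.mul h1, by rw [ev_mul h3 h1, h2]⟩

variable {P : Type} {p : P → ℂ[X]} {G : P → PowerSeries ℂ} {y C : ℝ} {L : PowerSeries ℂ}

theorem coeff_eventually (hp : ∀ v, G v * (p v : PowerSeries ℂ) = 1) (hL : IsEuler p L) (n : ℕ) :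
    ∀ᶠ s : Finset P in atTop, PowerSeries.coeff n (∏ v ∈ s, G v) = PowerSeries.coeff n L := by
  obtain ⟨s, hs⟩ := hL (n + 1)
  filter_upwards [eventually_ge_atTop s] with s' hs'
  have h1 := hs s' hs'
  have h2 : (∏ v ∈ s', G v) * ∏ v ∈ s', (p v : PowerSeries ℂ) = 1 := by
    rw [← prod_mul_distrib]
    exact prod_eq_one fun v _ => hp v
  have h3 : L - ∏ v ∈ s', G v =
      (L * ∏ v ∈ s', (p v : PowerSeries ℂ) - 1) * ∏ v ∈ s', G v := by
    rw [sub_mul, one_mul, mul_assoc, mul_comm (∏ v ∈ s', (p v : PowerSeries ℂ)), h2, mul_one]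
  have h4 : (PowerSeries.X : PowerSeries ℂ) ^ (n + 1) ∣ L - ∏ v ∈ s', G v := by
    rw [h3]
    exact h1.mul_right _
  have h5 := (PowerSeries.X_pow_dvd_iff.1 h4) n (by omega)
  rw [map_sub] at h5
  exact (sub_eq_zero.1 h5).symm

theorem coeff_bound (hp : ∀ v, G v * (p v : PowerSeries ℂ) = 1) (hy : 0 < y)
    (hB : ∀ s : Finset P, Bs y C (∏ v ∈ s, G v)) (hL : IsEuler p L) (n : ℕ) :
    ‖PowerSeries.coeff n L‖ * y ^ n ≤ C := by
  obtain ⟨s, hs⟩ := (coeff_eventually hp hL n).exists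
  rw [← hs]
  exact ((hB s).1.le_tsum n fun m _ => mul_nonneg (norm_nonneg _) (pow_nonneg hy.le _)).trans
    (hB s).2

theorem le_div_pow {a C y : ℝ} {n : ℕ} (hy : 0 < y) (h : a * y ^ n ≤ C) {x : ℝ} (hx : 0 ≤ x) :
    a * x ^ n ≤ C * (x / y) ^ n := by
  rw [div_pow, ← mul_div_assoc, le_div_iff₀ (pow_pos hy n)]
  calc a * x ^ n * y ^ n = (a * y ^ n) * x ^ n := by ring
    _ ≤ C * x ^ n := mul_le_mul_of_nonneg_right h (pow_nonneg hx n)

theorem Ac.euler (hp : ∀ v, G v * (p v : PowerSeries ℂ) = 1) (hy : 0 < y)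
    (hB : ∀ s : Finset P, Bs y C (∏ v ∈ s, G v)) (hL : IsEuler p L) {x : ℂ} (hx : ‖x‖ < y) :
    Ac L x := by
  refine Summable.of_nonneg_of_le (fun n => norm_nonneg _) (fun n => ?_)
    ((summable_geometric_of_lt_one (div_nonneg (norm_nonneg x) hy.le)
      ((div_lt_one hy).2 hx)).mul_left C)
  rw [norm_mul, norm_pow]
  exact le_div_pow hy (coeff_bound hp hy hB hL n) (norm_nonneg x)

theorem euler_hasProd (hp : ∀ v, G v * (p v : PowerSeries ℂ) = 1) (hy : 0 < y)
    (hB : ∀ s : Finset P, Bs y C (∏ v ∈ s, G v)) (hL : IsEuler p L) {x : ℂ} (hx : ‖x‖ < y) :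
    HasProd (fun v => ((p v).eval x)⁻¹) (ev L x) := by
  have hG : ∀ v, Ac (G v) x := by
    intro v
    have h1 := hB {v}
    rw [prod_singleton] at h1
    exact h1.ac hx.le
  have hval : ∀ v, ev (G v) x = ((p v).eval x)⁻¹ := by
    intro v
    have h1 := ev_mul (hG v) (Ac.coe (p v) x)
    rw [hp v, ev_one, ev_coe] at h1
    exact eq_inv_of_mul_eq_one_left h1.symm
  have h1 : (fun s : Finset P => ∏ v ∈ s, ((p v).eval x)⁻¹) =
      fun s => ∑' n, PowerSeries.coeff n (∏ v ∈ s, G v) * x ^ n := by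
    funext s
    rw [← prod_congr rfl fun v _ => hval v, ← (ev_prod s fun v _ => hG v).2]
    rfl
  unfold HasProd
  rw [SummationFilter.unconditional_filter, h1]
  refine tendsto_tsum_of_dominated_convergence (bound := fun n => C * (‖x‖ / y) ^ n)
    ((summable_geometric_of_lt_one (div_nonneg (norm_nonneg x) hy.le)
      ((div_lt_one hy).2 hx)).mul_left C) ?_ ?_
  · intro n
    refine tendsto_const_nhds.congr' ?_
    filter_upwards [coeff_eventually hp hL n] with s hs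
    rw [hs]
  · refine Eventually.of_forall fun s n => ?_
    rw [norm_mul, norm_pow]
    refine le_div_pow hy ?_ (norm_nonneg x)
    exact ((hB s).1.le_tsum n fun m _ => mul_nonneg (norm_nonneg _) (pow_nonneg hy.le _)).trans
      (hB s).2

theorem euler_rat (hp : ∀ v, G v * (p v : PowerSeries ℂ) = 1) (hy : 0 < y)
    (hB : ∀ s : Finset P, Bs y C (∏ v ∈ s, G v)) (hL : IsEuler p L) {A B : ℂ[X]}
    (hAB : (B : PowerSeries ℂ) * L = A) {x : ℂ} (hx : ‖x‖ < y) :
    B.eval x * ev L x = A.eval x := by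
  rw [← ev_coe, ← ev_mul (Ac.coe B x) (Ac.euler hp hy hB hL hx), hAB, ev_coe]

/-! ### ratios of polynomials -/

theorem tendsto_ratio {A B : ℂ[X]} (hA : A ≠ 0) (hB : B ≠ 0) {t : ℂ}
    (hm : A.rootMultiplicity t = B.rootMultiplicity t) {F : ℂ → ℂ} {S : Set ℂ}
    (hF : ∀ x ∈ S, B.eval x * F x = A.eval x) :
    ∃ c : ℂ, c ≠ 0 ∧ Tendsto F (𝓝[S ∩ {t}ᶜ] t) (𝓝 c) := by
  obtain ⟨A', hA', hA''⟩ := exists_eq_pow_rootMultiplicity_mul_and_not_dvd A hA t
  obtain ⟨B', hB', hB''⟩ := exists_eq_pow_rootMultiplicity_mul_and_not_dvd B hB t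
  have hA0 : A'.eval t ≠ 0 := fun h => hA'' (dvd_iff_isRoot.2 h)
  have hB0 : B'.eval t ≠ 0 := fun h => hB'' (dvd_iff_isRoot.2 h)
  refine ⟨A'.eval t / B'.eval t, div_ne_zero hA0 hB0, ?_⟩
  have hc : ContinuousAt (fun x => A'.eval x / B'.eval x) t :=
    A'.continuous.continuousAt.div B'.continuous.continuousAt hB0
  have hne : ∀ᶠ x in 𝓝[S ∩ {t}ᶜ] t, B'.eval x ≠ 0 :=
    (B'.continuous.continuousAt.eventually_ne hB0).filter_mono nhdsWithin_le_nhds
  refine (hc.tendsto.mono_left nhdsWithin_le_nhds).congr' ?_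
  filter_upwards [hne, self_mem_nhdsWithin] with x hx hx2
  obtain ⟨hxS, hxt⟩ := hx2
  have h1 := hF x hxS
  rw [hA', hB', hm, eval_mul, eval_mul, mul_assoc] at h1
  have h2 : ((X - C t) ^ B.rootMultiplicity t : ℂ[X]).eval x ≠ 0 := by
    rw [eval_pow, eval_sub, eval_X, eval_C]
    exact pow_ne_zero _ (sub_ne_zero.2 hxt)
  have h3 := mul_left_cancel₀ h2 h1
  rw [div_eq_iff hx, ← h3, mul_comm]

end Pool.Agent.U926.FE
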